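import Pool.Agent.N875.K17.Stm
import Pool.Agent.N875.P17.Lo4
import Pool.Agent.N73.QB.Alg
import Pool.Agent.Y46.G2.EmbA

/-!
# K17-2U: the sufficient condition at the places over `2`
-/

set_option autoImplicit false
set_option linter.unusedVariables false

open NumberField IsDedekindDomain WithZero

namespace Pool.Agent.N499.K17

open scoped Classical

open Pool.Agent.TH841.SH (LocC)
open Pool.Agent.N856.QB (Lo)
open Pool.Agent.N875.K17
open Pool.Agent.N875.P17 (locC_two locC_even locC_one hz oz)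
open Pool.Agent.N73.QB (Cl Pt0 sum_pt)

section

variable {K : Type} [Field K] [NumberField K] (v : HeightOneSpectrum (𝓞 K))

/-- the 2-adic numbers in the completion at a place over `2` -/
theorem exists_hom2 (hmem2 : ((2 : ℕ) : 𝓞 K) ∈ v.asIdeal) :
    Nonempty (ℚ_[2] →+* v.adicCompletion K) := by
  let u : HeightOneSpectrum (𝓞 ℚ) :=
    (Rat.HeightOneSpectrum.primesEquiv (R := 𝓞 ℚ)).symm ⟨2, Nat.prime_two⟩
  have hu : Rat.HeightOneSpectrum.primesEquiv u = (⟨2, Nat.prime_two⟩ : Nat.Primes) :=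
    Equiv.apply_symm_apply _ _
  have hodd : ∀ b : ℤ, ¬ (2 : ℤ) ∣ b → v.valuation K ((b : ℤ) : K) = 1 := by
    intro b hb
    have e : ((b : ℤ) : K) = algebraMap (𝓞 K) K ((b : ℤ) : 𝓞 K) := by rw [map_intCast]
    rw [e, v.valuation_eq_one_iff_notMem]
    intro hmem
    apply v.isPrime.ne_top
    rw [Ideal.eq_top_iff_one]
    obtain ⟨c, hc⟩ : ∃ c, b = 2 * c + 1 := by
      have h : Odd b := by
        rw [← Int.not_even_iff_odd]
        intro h
        exact hb h.two_dvd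
      exact h
    have h5 : (1 : 𝓞 K) = ((b : ℤ) : 𝓞 K) - ((2 : ℕ) : 𝓞 K) * ((c : ℤ) : 𝓞 K) := by
      rw [hc]
      push_cast
      ring
    rw [h5]
    exact v.asIdeal.sub_mem hmem (v.asIdeal.mul_mem_right _ hmem2)
  have hint : ∀ b : ℤ, v.valuation K ((b : ℤ) : K) ≤ 1 := by
    intro b
    have e : ((b : ℤ) : K) = algebraMap (𝓞 K) K ((b : ℤ) : 𝓞 K) := by rw [map_intCast]
    rw [e]
    exact v.valuation_le_one _
  have hval : ∀ x : ℚ, ¬ 2 ∣ x.den →
      v.valuation K (algebraMap ℚ K x) = v.valuation K ((x.num : ℤ) : K) := by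
    intro x hx
    have e : algebraMap ℚ K x = ((x.num : ℤ) : K) / (((x.den : ℕ) : ℤ) : K) := by
      rw [eq_ratCast]
      have := Rat.cast_def (K := K) x
      rw [this]
      push_cast
      rfl
    have h9 : v.valuation K ((((x.den : ℕ) : ℤ)) : K) = 1 := hodd _ (by exact_mod_cast hx)
    rw [e, map_div₀, h9, div_one]
  have hden : ∀ x : ℚ, u.valuation ℚ x ≤ 1 ↔ ¬ 2 ∣ x.den := by
    intro x
    have h1 := (Rat.HeightOneSpectrum.valuation_equiv_padicValuation u).le_one_iff_le_one (x := x)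
    rw [h1, hu]
    have : Fact (Nat.Prime 2) := ⟨Nat.prime_two⟩
    exact Rat.padicValuation_le_one_iff
  have i1 : ∀ x : ℚ, u.valuation ℚ x ≤ 1 → v.valuation K (algebraMap ℚ K x) ≤ 1 := by
    intro x hx
    rw [hval x ((hden x).1 hx)]
    exact hint _
  have i2 : ∀ x : ℚ, u.valuation ℚ x < 1 → v.valuation K (algebraMap ℚ K x) < 1 := by
    intro x hx
    rw [hval x ((hden x).1 hx.le)]
    have hx2 : (2 : ℤ) ∣ x.num := by
      by_contra hno
      by_cases hx0 : x = 0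
      · rw [hx0] at hno
        exact hno (by simp)
      have h6 : ¬ 2 ∣ (x⁻¹).den := by
        rw [Rat.den_inv_of_ne_zero hx0]
        intro h
        exact hno (Int.natCast_dvd.2 h)
      have h7 := (hden x⁻¹).2 h6
      rw [map_inv₀, inv_le_one₀ (zero_lt_iff.2 ((Valuation.ne_zero_iff _).2 hx0))] at h7
      exact absurd hx (not_lt.2 h7)
    obtain ⟨c, hc⟩ := hx2
    have e : ((x.num : ℤ) : K) = algebraMap (𝓞 K) K (((2 : ℕ) : 𝓞 K) * ((c : ℤ) : 𝓞 K)) := by
      rw [hc, map_mul, map_natCast, map_intCast]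
      push_cast
      rfl
    rw [e, v.valuation_lt_one_iff_mem]
    exact v.asIdeal.mul_mem_right _ hmem2
  obtain ⟨j, -, -⟩ := Pool.Agent.Y46.G2.exists_compl_cont u v (algebraMap ℚ K) i1 i2
  have hfin : Nonempty (ℚ_[2] ≃A[ℚ] u.adicCompletion ℚ) := by
    have e := Rat.HeightOneSpectrum.adicCompletion.padicEquiv (R := 𝓞 ℚ) u
    have h : ∀ p : Nat.Primes, p = (⟨2, Nat.prime_two⟩ : Nat.Primes) →
        ∀ (_ : Fact (Nat.Prime p.1)), Nonempty (u.adicCompletion ℚ ≃A[ℚ] ℚ_[p.1]) →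
        Nonempty (ℚ_[2] ≃A[ℚ] u.adicCompletion ℚ) := by
      rintro p rfl _ ⟨e⟩
      exact ⟨e.symm⟩
    exact h _ hu _ ⟨e⟩
  obtain ⟨e⟩ := hfin
  exact ⟨j.comp (e : ℚ_[2] ≃+* u.adicCompletion ℚ).toRingHom⟩

end

section alg

variable {F L : Type} [Field F] [Field L] (φ : F →+* L)

include φ in
/-- transport -/
lemma cl_of_loc {a b c u w : ℤ} (h : LocC F a b c u w) :
    Cl (a : L) (b : L) (c : L) (u : L) (w : L) := by
  obtain ⟨x, y, hy, he, ⟨s, hs⟩, ⟨t, ht⟩⟩ := h
  refine ⟨φ x, φ y, (map_ne_zero φ).2 hy, ?_, ⟨φ s, ?_⟩, ⟨φ t, ?_⟩⟩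
  · have := congrArg φ he
    simpa only [map_pow, map_mul, map_sub, map_intCast] using this
  · have := congrArg φ hs
    simpa only [map_mul, map_sub, map_intCast] using this
  · have := congrArg φ ht
    simpa only [map_mul, map_sub, map_intCast] using this

lemma pt0_of_cl {a b c : L} (h : Cl a b c 1 1) : Pt0 a b c := by
  obtain ⟨x, y, hy, he, ⟨s, hs⟩, ⟨t, ht⟩⟩ := h
  rw [mul_one] at hs ht
  refine ⟨x, y, hy, he, ⟨s, hs⟩, ⟨t, ht⟩, ⟨y / (s * t), ?_⟩⟩
  have hs0 : s ≠ 0 := by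
    rintro rfl
    rw [mul_zero] at hs
    rw [hs, zero_mul, zero_mul] at he
    exact hy (pow_eq_zero_iff two_ne_zero |>.1 he)
  have ht0 : t ≠ 0 := by
    rintro rfl
    rw [mul_zero] at ht
    rw [ht, mul_zero, zero_mul] at he
    exact hy (pow_eq_zero_iff two_ne_zero |>.1 he)
  field_simp
  rw [he, hs, ht]
  ring

/-- from the twist by the square `m = ρ²` -/
lemma cl_twist {m ρ n : L} (hm : ρ ^ 2 = m) (hρ : ρ ≠ 0) (h : Cl 0 (-m) (16 * m) n 1) :
    Cl (0 : L) (-1) 16 n 1 := by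
  obtain ⟨x, y, hy, he, ⟨s, hs⟩, ⟨t, ht⟩⟩ := h
  subst hm
  refine ⟨x / ρ ^ 2, y / ρ ^ 3, div_ne_zero hy (pow_ne_zero _ hρ), ?_, ⟨s / ρ, ?_⟩, ⟨t / ρ, ?_⟩⟩
  · field_simp
    rw [he]
    ring
  · field_simp
    linear_combination hs
  · field_simp
    linear_combination ht

end alg

theorem t_2U : S_2U := by
  intro m hm hm1 K _ _ r hQ w hw a b ha hb hC
  obtain ⟨φ⟩ := exists_hom2 w (by exact_mod_cast hw)
  have hch : CharZero (w.adicCompletion K) :=
    charZero_of_injective_algebraMap (algebraMap K (w.adicCompletion K)).injective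
  obtain ⟨L, hL⟩ : ∃ L, L = w.adicCompletion K := ⟨_, rfl⟩
  obtain ⟨ρ, hρ⟩ : ∃ ρ : w.adicCompletion K, ρ ^ 2 = (m : w.adicCompletion K) :=
    ⟨algebraMap K _ r, by rw [← map_pow, hQ.hr, map_intCast]⟩
  have hm0 : m ≠ 0 := hm.ne_zero
  have hmL : (m : w.adicCompletion K) ≠ 0 := by exact_mod_cast hm0
  have hρ0 : ρ ≠ 0 := by
    rintro rfl
    rw [zero_pow two_ne_zero] at hρ
    exact hmL hρ.symm
  -- the first kind
  have key : ∀ a' b' : ℤ, a' % 2 = 1 → b' % 4 = 1 →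
      Cl (0 : w.adicCompletion K) (-1) 16 (a' : w.adicCompletion K) (b' : w.adicCompletion K) := by
    intro a' b' h1 h2
    have h := locC_two (m := 1) (by norm_num) h1 h2
    have := cl_of_loc φ h
    simpa using this
  -- replacing the classes
  have sub : ∀ a' b' : ℤ, a' ≠ 0 → b' ≠ 0 → (IsSquare (a' * a) ∨ IsSquare (a' * a * m)) →
      (IsSquare (b' * b) ∨ IsSquare (b' * b * m)) →
      Cl (0 : w.adicCompletion K) (-1) 16 (a' : w.adicCompletion K) (b' : w.adicCompletion K) →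
      LoE K w a b := by
    intro a' b' ha' hb' h1 h2 h
    have g : ∀ x y : ℤ, (IsSquare (x * y) ∨ IsSquare (x * y * m)) →
        IsSquare ((x : w.adicCompletion K) * (y : w.adicCompletion K)) := by
      rintro x y (⟨s, hs⟩ | ⟨s, hs⟩)
      · exact ⟨(s : w.adicCompletion K), by exact_mod_cast hs⟩
      · refine ⟨(s : w.adicCompletion K) / ρ, ?_⟩
        have hs' : (x : w.adicCompletion K) * y * m = s * s := by exact_mod_cast hs
        rw [← hρ] at hs'
        field_simp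
        linear_combination hs'
    have := h.congr (g _ _ h1) (g _ _ h2) (by exact_mod_cast ha') (by exact_mod_cast hb')
    obtain ⟨x, y, hy, he, p, q⟩ := this
    exact ⟨x, y, hy, by simpa using he, by simpa using p, by simpa using q⟩
  obtain ⟨c1, c3, c2⟩ := hC
  have ha0 : a ≠ 0 := ha.ne_zero
  have hb0 : b ≠ 0 := hb.ne_zero
  have sq4 : ∀ n : ℤ, Squarefree n → n % 4 ≠ 0 := by
    intro n hn h
    have h2 : (2 : ℤ) * 2 ∣ n := by omega
    have := hn 2 h2
    rw [Int.isUnit_iff] at this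
    omega
  have hm4 := sq4 m hm
  have ha4 := sq4 a ha
  have hb4 := sq4 b hb
  have oddne : ∀ n : ℤ, n % 2 = 1 → n ≠ 0 := by rintro n h rfl; norm_num at h
  rcases (by omega : m % 4 = 1 ∨ m % 4 = 3 ∨ m % 4 = 2) with h | h | h
  · obtain ⟨h1, h2⟩ := c1 h
    exact sub a b ha0 hb0 (Or.inl ⟨a, rfl⟩) (Or.inl ⟨b, rfl⟩) (key a b (by omega) h2)
  · have hb2 := c3 h
    obtain ⟨b', hb', hbb, hb'0⟩ : ∃ b' : ℤ, b' % 4 = 1 ∧ (IsSquare (b' * b) ∨ IsSquare (b' * b * m)) ∧
        b' ≠ 0 := by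
      rcases (by omega : b % 4 = 1 ∨ b % 4 = 3) with g | g
      · exact ⟨b, g, Or.inl ⟨b, rfl⟩, hb0⟩
      · refine ⟨b * m, ?_, Or.inr ⟨b * m, by ring⟩, mul_ne_zero hb0 hm0⟩
        rw [Int.mul_emod, g, h]
        norm_num
    by_cases ha2 : (2 : ℤ) ∣ a
    · obtain ⟨u, rfl⟩ := ha2
      have hu : u % 2 = 1 := by omega
      obtain ⟨u', hu', hu2⟩ : ∃ u' : ℤ, u' % 2 = 1 ∧ hz (-1) u' + oz (-m) = 0 := by
        have z2 : (1 : ZMod 2) + 1 = 0 := by decide
        by_cases g : (-m) % 8 = 1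
        · refine ⟨1, by norm_num, ?_⟩
          unfold hz oz
          rw [if_pos rfl, if_pos (by norm_num), if_pos g, add_zero]
        · refine ⟨3, by norm_num, ?_⟩
          unfold hz oz
          rw [if_pos rfl, if_neg (by norm_num), if_neg g]
          exact z2
      have h3 := locC_even (c := -1) (o := -m) (Or.inl rfl) (by omega) hu' hu2
      have e : (-1 : ℤ) * -m = m := by ring
      rw [e] at h3
      have h4 := cl_of_loc φ h3
      have h5 : Cl (0 : w.adicCompletion K) (-1) 16 ((2 * u' : ℤ) : w.adicCompletion K) 1 := by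
        refine cl_twist hρ hρ0 ?_
        simpa using h4
      have h6 := key (u * u') b' (by rw [Int.mul_emod, hu, hu']; norm_num) hb'
      have hp0 : Pt0 (0 : w.adicCompletion K) (-1) 16 := by
        have := cl_of_loc φ (locC_one 2 1)
        apply pt0_of_cl
        simpa using this
      have h7 := sum_pt (by norm_num) (by norm_num) (by norm_num) hp0 h5 h6
      refine sub (2 * u' * (u * u')) b' ?_ hb'0 (Or.inl ⟨2 * u' * u, by ring⟩) hbb ?_
      · have := oddne u hu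
        have := oddne u' hu'
        positivity
      · rw [one_mul] at h7
        push_cast at h7 ⊢
        exact h7
    · exact sub a b' ha0 hb'0 (Or.inl ⟨a, rfl⟩) hbb (key a b' (by omega) hb')
  · have hm2 : (2 : ℤ) ∣ m := by omega
    obtain ⟨m', hm'⟩ := hm2
    have hm'2 : m' % 2 = 1 := by omega
    have hmd : m / 2 = m' := by omega
    obtain ⟨a', ha', haa⟩ : ∃ a' : ℤ, a' % 2 = 1 ∧ (IsSquare (a' * a) ∨ IsSquare (a' * a * m)) := by
      by_cases ha2 : (2 : ℤ) ∣ a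
      · obtain ⟨u, hu⟩ := ha2
        refine ⟨u * m', ?_, Or.inr ⟨u * m' * 2, by rw [hu, hm']; ring⟩⟩
        rw [Int.mul_emod, hm'2, (by omega : u % 2 = 1)]
        norm_num
      · exact ⟨a, by omega, Or.inl ⟨a, rfl⟩⟩
    obtain ⟨b', hb', hbb⟩ : ∃ b' : ℤ, b' % 4 = 1 ∧ (IsSquare (b' * b) ∨ IsSquare (b' * b * m)) := by
      rcases c2 ⟨m', hm'⟩ with g | ⟨⟨u, hu⟩, g⟩
      · exact ⟨b, g, Or.inl ⟨b, rfl⟩⟩
      · have hbd : b / 2 = u := by omega
        rw [hbd, hmd] at g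
        exact ⟨u * m', g, Or.inr ⟨u * m' * 2, by rw [hu, hm']; ring⟩⟩
    refine sub a' b' (oddne a' ha') ?_ haa hbb (key a' b' ha' hb')
    rintro rfl
    norm_num at hb'

end Pool.Agent.N499.K17
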